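import Pool.Agent.H56.TSp.Final

/-!
# Superlinear total space for polynomially refutable k-CNF formulas

For every `ε > 0` there is a family of unsatisfiable `k`-CNF formulas `F n` in `n` variables
(`n` in an infinite set) with `n ^ O(1)` clauses and resolution refutations of size `n ^ O(1)`,
all of whose space-aware resolution refutations have total space at least `n ^ (4 / 3 - ε)`.
-/

namespace Pool.Agent.Results.MP_f95493_lc.SuperlinearTotalSpace

open Finset Pool.Agent.H56.TSp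

theorem exponent (a : ℕ) (ε : ℝ) (hε : 0 < ε) (ha : 1 / ε ≤ a) (q : ℕ) (hq : 1 ≤ q) :
    (((q ^ (3 * a + 1) : ℕ) : ℝ)) ^ (4 / 3 - ε) ≤ ((q ^ (4 * a) : ℕ) : ℝ) := by
  have hq' : (1 : ℝ) ≤ q := by exact_mod_cast hq
  have h3 : (0 : ℝ) < 3 * a + 1 := by positivity
  have h1 : (4 / 3 - ε : ℝ) ≤ 4 * a / (3 * a + 1) := by
    rw [le_div_iff₀ h3]
    have h4 : 1 ≤ a * ε := by
      rw [div_le_iff₀ hε] at ha
      linarith
    nlinarith
  have hn : (1 : ℝ) ≤ ((q ^ (3 * a + 1) : ℕ) : ℝ) := by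
    push_cast
    exact one_le_pow₀ hq'
  calc (((q ^ (3 * a + 1) : ℕ) : ℝ)) ^ (4 / 3 - ε)
      ≤ (((q ^ (3 * a + 1) : ℕ) : ℝ)) ^ ((4 * a / (3 * a + 1) : ℝ)) :=
        Real.rpow_le_rpow_of_exponent_le hn h1
    _ = ((q : ℝ) ^ ((3 * a + 1 : ℝ))) ^ ((4 * a / (3 * a + 1) : ℝ)) := by
        congr 1
        push_cast
        rw [← Real.rpow_natCast]
        push_cast
        rfl
    _ = (q : ℝ) ^ ((3 * a + 1 : ℝ) * (4 * a / (3 * a + 1) : ℝ)) := by
        rw [Real.rpow_mul (by linarith)]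
    _ = (q : ℝ) ^ ((4 * a : ℕ) : ℝ) := by
        congr 1
        push_cast
        field_simp
    _ = ((q ^ (4 * a) : ℕ) : ℝ) := by
        rw [Real.rpow_natCast]
        push_cast
        rfl

/-- For every `ε > 0` there are constants `k`, `c`, an infinite set `I` of positive integers and
unsatisfiable `k`-CNF formulas `F n` in `n` variables (`n ∈ I`) with at most `n ^ c` clauses and
a resolution refutation of size at most `n ^ c`, such that every space-aware resolution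
refutation of `F n` has a configuration of total space at least `n ^ (4 / 3 - ε)`. -/
theorem result (ε : ℝ) (hε : 0 < ε) :
    ∃ (k c : ℕ) (I : Set ℕ) (F : (n : ℕ) → Finset (Clause (Fin n))), I.Infinite ∧
      ∀ n ∈ I, 0 < n ∧
        (∀ D ∈ F n, D.card ≤ k) ∧
        (F n).card ≤ n ^ c ∧
        (∀ y : Fin n → Bool, ∃ E ∈ F n, ∀ p ∈ E, y p.1 ≠ p.2) ∧
        (∃ (m : ℕ) (D : ℕ → Clause (Fin n)), m + 1 ≤ n ^ c ∧ IsRefutation (F n) m D) ∧
        ∀ (t : ℕ) (C : ℕ → Finset (Clause (Fin n))), IsSpaceRefutation (F n) t C →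
          ∃ i ≤ t, (n : ℝ) ^ (4 / 3 - ε) ≤ (totalSpace (C i) : ℝ) := by
  classical
  obtain ⟨a, ha⟩ := exists_nat_ge (max (1 / ε) 1)
  have ha1 : 1 ≤ a := by
    have : (1 : ℝ) ≤ a := (le_max_right _ _).trans ha
    exact_mod_cast this
  have haε : 1 / ε ≤ a := (le_max_left _ _).trans ha
  obtain ⟨k, c, q₁, hfam⟩ := family a ha1
  let P : (n : ℕ) → Finset (Clause (Fin n)) → Prop := fun n F =>
    (∀ D ∈ F, D.card ≤ k) ∧ F.card ≤ n ^ c ∧
      (∀ y : Fin n → Bool, ∃ E ∈ F, ∀ p ∈ E, y p.1 ≠ p.2) ∧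
      (∃ (m : ℕ) (D : ℕ → Clause (Fin n)), m + 1 ≤ n ^ c ∧ IsRefutation F m D) ∧
      ∀ (t : ℕ) (C : ℕ → Finset (Clause (Fin n))), IsSpaceRefutation F t C →
        ∃ i ≤ t, (n : ℝ) ^ (4 / 3 - ε) ≤ (totalSpace (C i) : ℝ)
  have hP : ∀ q ≥ q₁ + 2, ∃ F, P (q ^ (3 * a + 1)) F := by
    intro q hq
    obtain ⟨F, h1, h2, ⟨m, D, hm, hD⟩, h4⟩ := hfam q (by omega)
    refine ⟨F, h1, h2, unsat_of_refutation hD, ⟨m, D, hm, hD⟩, ?_⟩
    intro t C hC
    obtain ⟨i, hi, hle⟩ := h4 t C hC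
    refine ⟨i, hi, (exponent a ε hε haε q (by omega)).trans ?_⟩
    exact_mod_cast hle
  let I : Set ℕ := {n | ∃ q ≥ q₁ + 2, n = q ^ (3 * a + 1)}
  have hI : ∀ n ∈ I, ∃ F, P n F := by
    rintro n ⟨q, hq, rfl⟩
    exact hP q hq
  refine ⟨k, c, I, fun n => if h : n ∈ I then (hI n h).choose else ∅, ?_, ?_⟩
  · rw [Set.infinite_iff_exists_gt]
    intro b
    refine ⟨(b + q₁ + 2) ^ (3 * a + 1), ⟨b + q₁ + 2, by omega, rfl⟩, ?_⟩
    calc b < b + q₁ + 2 := by omega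
      _ = (b + q₁ + 2) ^ 1 := (pow_one _).symm
      _ ≤ (b + q₁ + 2) ^ (3 * a + 1) := Nat.pow_le_pow_right (by omega) (by omega)
  · intro n hn
    have hpos : 0 < n := by
      obtain ⟨q, hq, rfl⟩ := hn
      exact Nat.pow_pos (by omega)
    have hdef : (if h : n ∈ I then (hI n h).choose else (∅ : Finset (Clause (Fin n)))) =
        (hI n hn).choose := dif_pos hn
    simp only [hdef]
    exact ⟨hpos, (hI n hn).choose_spec⟩

end Pool.Agent.Results.MP_f95493_lc.SuperlinearTotalSpace
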